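import Mathlib

/-!
A group with many transpositions on four points and periodic four point stabilisers induces an
odd permutation on some set of five points.
-/

set_option autoImplicit false

namespace Pool.Agent.FS.PeriodicStabiliser

open Equiv

variable {X : Type*}

/-- Four distinct points of the domain. -/
def D4 (Ω : X → Prop) (a b c d : X) : Prop :=
  Ω a ∧ Ω b ∧ Ω c ∧ Ω d ∧ a ≠ b ∧ a ≠ c ∧ a ≠ d ∧ b ≠ c ∧ b ≠ d ∧ c ≠ d

/-- The hypotheses of the five point argument. -/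
structure Ctx (H : Subgroup (Perm X)) (Ω : X → Prop) : Prop where
  mov : ∀ h ∈ H, ∀ x, h x ≠ x → Ω x
  tr : ∀ a b c d, D4 Ω a b c d → ∃ g ∈ H, g a = a ∧ g b = b ∧ g c = d ∧ g d = c
  per : ∀ a b c d, D4 Ω a b c d → ∀ h ∈ H, h a = a → h b = b → h c = c → h d = d →
    IsOfFinOrder h
  nA : ∀ a b c d p, D4 Ω a b c d → Ω p → ∀ h ∈ H, h p = p → p ≠ a → p ≠ b →
    h a = a → h b = b → h c = d → h d = c → False
  nB : ∀ a b c d p, D4 Ω a b c d → Ω p → ∀ h ∈ H, h p = p →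
    h a = c → h c = b → h b = d → h d = a → False
  inf : ∀ B : Finset X, ∃ x, Ω x ∧ x ∉ B

variable {H : Subgroup (Perm X)} {Ω : X → Prop}

theorem Ctx.three (C : Ctx H Ω) {h : Perm X} (hh : h ∈ H) {u v w : X} (hu : Ω u) (hv : Ω v)
    (hw : Ω w) (uv : u ≠ v) (wu : w ≠ u) (wv : w ≠ v) (e1 : h u = u) (e2 : h v = v)
    (e3 : h w = w) {a : X} (ha : h (h a) = a) : h a = a := by
  by_contra hne
  have hb : h (h a) ≠ h a := fun e => hne (h.injective e)
  refine C.nA u v a (h a) w ⟨hu, hv, C.mov h hh a hne, C.mov h hh _ hb, uv, ?_, ?_, ?_, ?_,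
    fun e => hne e.symm⟩ hw h hh e3 wu wv e1 e2 rfl ha
  · rintro rfl; exact hne e1
  · intro e; exact hb (by rw [← e]; exact e1)
  · rintro rfl; exact hne e2
  · intro e; exact hb (by rw [← e]; exact e2)

theorem Ctx.two_pow (C : Ctx H Ω) {u v w : X} (hu : Ω u) (hv : Ω v)
    (hw : Ω w) (uv : u ≠ v) (wu : w ≠ u) (wv : w ≠ v) (n : ℕ) : ∀ h ∈ H, h u = u → h v = v →
    h w = w → h ^ (2 ^ n) = 1 → h = 1 := by
  induction n with
  | zero => intro h _ _ _ _ e; simpa using e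
  | succ n ih =>
    intro h hh e1 e2 e3 e
    have h2 : h * h = 1 := ih (h * h) (H.mul_mem hh hh) (by simp [e1]) (by simp [e2])
      (by simp [e3]) (by rw [← pow_two, ← pow_mul, ← pow_succ', e])
    ext a
    exact C.three hh hu hv hw uv wu wv e1 e2 e3 (by simpa using congrArg (fun k : Perm X => k a) h2)

theorem Ctx.odd (C : Ctx H Ω) {a b c d : X} (D : D4 Ω a b c d) {h : Perm X} (hh : h ∈ H)
    (e1 : h a = a) (e2 : h b = b) (e3 : h c = c) (e4 : h d = d) :
    ∃ j : ℕ, h ^ (2 * j + 1) = 1 := by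
  obtain ⟨n, hn0, hn⟩ := isOfFinOrder_iff_pow_eq_one.1 (C.per a b c d D h hh e1 e2 e3 e4)
  obtain ⟨e, m, ⟨j, rfl⟩, rfl⟩ := Nat.exists_eq_two_pow_mul_odd hn0.ne'
  obtain ⟨ha, hb, hc, -, ab, ac, -, bc, -, -⟩ := D
  refine ⟨j, C.two_pow ha hb hc ab ac.symm bc.symm e _ (H.pow_mem hh _)
    (Perm.pow_apply_eq_self_of_apply_eq_self e1 _) (Perm.pow_apply_eq_self_of_apply_eq_self e2 _)
    (Perm.pow_apply_eq_self_of_apply_eq_self e3 _) ?_⟩
  rw [← pow_mul, mul_comm, hn]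

theorem odd_apply {g : Perm X} {c : X} (h : g (g c) = c) (j : ℕ) : (g ^ (2 * j + 1)) c = g c := by
  have : (g * g) c = c := h
  rw [pow_succ', pow_mul, pow_two, Perm.mul_apply, Perm.pow_apply_eq_self_of_apply_eq_self this]

theorem Ctx.invol (C : Ctx H Ω) {a b c d : X} (D : D4 Ω a b c d) {g : Perm X} (hg : g ∈ H)
    (e1 : g a = a) (e2 : g b = b) (e3 : g c = d) (e4 : g d = c) :
    ∃ m : ℕ, g ^ m * g ^ m = 1 ∧ (g ^ m) a = a ∧ (g ^ m) b = b ∧ (g ^ m) c = d ∧
      (g ^ m) d = c := by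
  obtain ⟨j, hj⟩ := C.odd D (H.mul_mem hg hg) (by simp [e1]) (by simp [e2]) (by simp [e3, e4])
    (by simp [e3, e4])
  refine ⟨2 * j + 1, ?_, Perm.pow_apply_eq_self_of_apply_eq_self e1 _,
    Perm.pow_apply_eq_self_of_apply_eq_self e2 _, ?_, ?_⟩
  · rw [← pow_two, ← pow_mul, mul_comm (2 * j + 1), pow_mul, pow_two, hj]
  · rw [odd_apply (by rw [e3, e4]), e3]
  · rw [odd_apply (by rw [e4, e3]), e4]

theorem Ctx.cent (C : Ctx H Ω) {x : Perm X} (hx : x ∈ H) (xx : x * x = 1) {a b c d : X}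
    (D : D4 Ω a b c d) (xa : x a = b) (xc : x c = d) :
    ∃ g ∈ H, x * g = g * x ∧ g a = a ∧ g b = b ∧ g c = d ∧ g d = c := by
  obtain ⟨g0, hg0, e1, e2, e3, e4⟩ := C.tr a b c d D
  have x2 : ∀ y, x (x y) = y := fun y => by simpa using congrArg (fun k : Perm X => k y) xx
  have xb : x b = a := by rw [← xa, x2]
  have xd : x d = c := by rw [← xc, x2]
  have i1 : g0⁻¹ a = a := by rw [Perm.inv_eq_iff_eq, e1]
  have i2 : g0⁻¹ b = b := by rw [Perm.inv_eq_iff_eq, e2]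
  have i3 : g0⁻¹ c = d := by rw [Perm.inv_eq_iff_eq, e4]
  have i4 : g0⁻¹ d = c := by rw [Perm.inv_eq_iff_eq, e3]
  obtain ⟨x', hx'⟩ : ∃ x', x' = g0 * x * g0⁻¹ := ⟨_, rfl⟩
  have xx' : x' * x' = 1 := by
    rw [hx']
    calc g0 * x * g0⁻¹ * (g0 * x * g0⁻¹) = g0 * (x * x) * g0⁻¹ := by group
      _ = 1 := by rw [xx]; group
  have hp : x * x' ∈ H := H.mul_mem hx (hx' ▸ H.mul_mem (H.mul_mem hg0 hx) (H.inv_mem hg0))
  have p1 : (x * x') a = a := by rw [hx']; simp only [Perm.mul_apply, i1, xa, e2, xb]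
  have p2 : (x * x') b = b := by rw [hx']; simp only [Perm.mul_apply, i2, xb, e1, xa]
  have p3 : (x * x') c = c := by rw [hx']; simp only [Perm.mul_apply, i3, xd, e3]
  have p4 : (x * x') d = d := by rw [hx']; simp only [Perm.mul_apply, i4, xc, e4]
  obtain ⟨j, hj⟩ := C.odd D hp p1 p2 p3 p4
  obtain ⟨r, hr⟩ : ∃ r, r = (x * x') ^ (j + 1) := ⟨_, rfl⟩
  have rr : r * r = x * x' := by
    rw [hr, ← pow_add, show j + 1 + (j + 1) = 2 * j + 1 + 1 by ring, pow_succ, hj, one_mul]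
  have s1 : SemiconjBy x (x * x') (x * x')⁻¹ := by
    unfold SemiconjBy
    rw [← mul_assoc, xx, one_mul, mul_inv_rev, mul_assoc, inv_mul_cancel, mul_one,
      inv_eq_of_mul_eq_one_right xx']
  have s2 : x * r = r⁻¹ * x := by
    have := s1.pow_right (j + 1)
    rw [inv_pow, ← hr] at this
    exact this
  have f : ∀ y, (x * x') y = y → r y = y := fun y h =>
    hr ▸ Perm.pow_apply_eq_self_of_apply_eq_self h _
  refine ⟨r * g0, H.mul_mem (hr ▸ H.pow_mem hp _) hg0, ?_, by simp [e1, f a p1],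
    by simp [e2, f b p2], by simp [e3, f d p4], by simp [e4, f c p3]⟩
  have k1 : g0 * x = x' * g0 := by rw [hx']; group
  have k2 : r⁻¹ * x = r * x' := by
    rw [inv_mul_eq_iff_eq_mul, ← mul_assoc, rr, mul_assoc, xx', mul_one]
  rw [← mul_assoc, s2, k2, mul_assoc, mul_assoc, k1]

theorem Ctx.false (C : Ctx H Ω) : False := by
  classical
  obtain ⟨p, hp, -⟩ := C.inf ∅
  obtain ⟨q, hq, nq⟩ := C.inf {p}
  obtain ⟨a, ha, na⟩ := C.inf {p, q}
  obtain ⟨b, hb, nb⟩ := C.inf {p, q, a}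
  simp only [Finset.mem_insert, Finset.mem_singleton, not_or] at nq na nb
  have D0 : D4 Ω p q a b := ⟨hp, hq, ha, hb, Ne.symm nq, Ne.symm na.1, Ne.symm nb.1,
    Ne.symm na.2, Ne.symm nb.2.1, Ne.symm nb.2.2⟩
  obtain ⟨g, hg, g1, g2, g3, g4⟩ := C.tr p q a b D0
  obtain ⟨m, xx, xp, xq, xa, xb⟩ := C.invol D0 hg g1 g2 g3 g4
  have hx : g ^ m ∈ H := H.pow_mem hg m
  generalize g ^ m = x at xx xp xq xa xb hx
  have x2 : ∀ y, x (x y) = y := fun y => by simpa using congrArg (fun k : Perm X => k y) xx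
  have fx : ∀ y, Ω y → x y = y → y = p ∨ y = q := fun y hy e => by
    by_contra hc
    push Not at hc
    exact C.nA p q a b y D0 hy x hx e hc.1 hc.2 xp xq xa xb
  -- an element commuting with x that is a transposition on two 2-cycles of x exchanges p and q
  have sw : ∀ k ∈ H, x * k = k * x → ∀ u v w t, D4 Ω u v w t → x u = v → k u = u → k v = v →
      k w = t → k t = w → k p = q := by
    intro k hk hc u v w t D xu k1 k2 k3 k4
    have hne : k p ≠ p := fun e => by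
      refine C.nA u v w t p D hp k hk e ?_ ?_ k1 k2 k3 k4
      · rintro rfl
        exact D.2.2.2.2.1 (xp.symm.trans xu)
      · rintro rfl
        exact D.2.2.2.2.1 (x.injective (xu.trans xp.symm))
    have e : x (k p) = k p := by
      have := congrArg (fun l : Perm X => l p) hc
      simpa [xp] using this
    have hΩ : Ω (k p) := C.mov k hk _ fun e' => hne (k.injective e')
    exact (fx _ hΩ e).resolve_left hne
  -- a second 2-cycle
  obtain ⟨c, hc, nc⟩ := C.inf {p, q, a, b}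
  simp only [Finset.mem_insert, Finset.mem_singleton, not_or] at nc
  have xc : x c ≠ c := fun e => by
    rcases fx c hc e with h | h
    · exact nc.1 h
    · exact nc.2.1 h
  have D1 : D4 Ω a b c (x c) := ⟨ha, hb, hc, C.mov x hx _ fun e => xc (x.injective e),
    Ne.symm nb.2.2, Ne.symm nc.2.2.1, fun e => nc.2.2.2 (by rw [← x2 c, ← e, xa]),
    Ne.symm nc.2.2.2, fun e => nc.2.2.1 (by rw [← x2 c, ← e, xb]), Ne.symm xc⟩
  obtain ⟨z0, hz0, cz0, z1, z2, z3, z4⟩ := C.cent hx xx D1 xa rfl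
  obtain ⟨n, zz, za, zb, zc, zd⟩ := C.invol D1 hz0 z1 z2 z3 z4
  have hz : z0 ^ n ∈ H := H.pow_mem hz0 n
  have cz : x * z0 ^ n = z0 ^ n * x := (Commute.pow_right cz0 n).eq
  generalize z0 ^ n = z at zz za zb zc zd hz cz
  have y2 : ∀ y, z (z y) = y := fun y => by simpa using congrArg (fun k : Perm X => k y) zz
  have xz : ∀ y, x (z y) = z (x y) := fun y => by
    simpa using congrArg (fun k : Perm X => k y) cz
  have zp : z p = q := sw z hz cz a b c (x c) D1 xa za zb zc zd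
  have zq : z q = p := by rw [← zp, y2]
  -- a regular orbit
  obtain ⟨d, hd, nd⟩ := C.inf {p, q, a, b, c, x c}
  simp only [Finset.mem_insert, Finset.mem_singleton, not_or] at nd
  have xd : x d ≠ d := fun e => by
    rcases fx d hd e with h | h
    · exact nd.1 h
    · exact nd.2.1 h
  have zd' : z d ≠ d := fun e =>
    C.nA a b c (x c) d D1 hd z hz e nd.2.2.1 nd.2.2.2.1 za zb zc zd
  have yd : x (z d) ≠ d := fun e => by
    obtain ⟨o1, o2, o3, o4, n1, n2, n3, n4, n5, n6⟩ := D1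
    refine C.nA c (x c) a b d ⟨o3, o4, o1, o2, n6, n2.symm, n4.symm, n3.symm, n5.symm, n1⟩ hd
      (x * z) (H.mul_mem hx hz) e nd.2.2.2.2.1 nd.2.2.2.2.2 ?_ ?_ ?_ ?_
    · simp [zc, x2]
    · simp [zd]
    · simp [za, xa]
    · simp [zb, xb]
  have D2 : D4 Ω d (x d) (z d) (x (z d)) := by
    refine ⟨hd, C.mov x hx _ fun e => xd (x.injective e), C.mov z hz _ fun e => zd' (z.injective e),
      C.mov x hx _ fun e => ?_, Ne.symm xd, Ne.symm zd', Ne.symm yd, fun e => yd ?_,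
      fun e => zd' (x.injective e).symm, fun e => ?_⟩
    · have e' := x.injective e
      rw [xz] at e'
      exact xd (z.injective e')
    · rw [← e, x2]
    · rw [xz] at e
      exact xd (z.injective e).symm
  obtain ⟨k, hk, ck, k1, k2, k3, k4⟩ := C.cent hx xx D2 rfl rfl
  have kp : k p = q := sw k hk ck _ _ _ _ D2 rfl k1 k2 k3 k4
  refine C.nB _ _ _ _ p D2 hp (z * k) (H.mul_mem hz hk) (by simp [kp, zq]) (by simp [k1]) ?_ ?_ ?_
  · rw [Perm.mul_apply, k3, xz, y2]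
  · rw [Perm.mul_apply, k2, xz]
  · rw [Perm.mul_apply, k4, y2]

end Pool.Agent.FS.PeriodicStabiliser
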