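import Pool.Agent.Lib.MP_155633_al.AmSign
import Pool.Agent.FS.PeriodicStabiliser.Core

/-!
Generous transitivity with a periodic stabiliser gives `(2t-1)`-transitivity.
-/

set_option autoImplicit false

namespace Pool.Agent.FS.PeriodicStabiliser

open Equiv Pool.Agent.Lib.MP_155633_al

variable {X : Type*} {G : Subgroup (Perm X)}

section sign

variable {κ : Type} [Fintype κ] [DecidableEq κ] {c : (κ → X) → ℝ}

theorem ne_zero (hc : SignFn G c) {T : κ → X} (hT : Function.Injective T) : c T ≠ 0 := fun e => by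
  have := hc.sq T hT
  rw [e] at this
  simp at this

theorem transport (hc : SignFn G c) {T T' : κ → X} {g : Perm X} (hg : g ∈ G) {σ : Perm κ}
    (h : ∀ i, g (T i) = T' (σ i)) : c T = ((Perm.sign σ : ℤ) : ℝ) * c T' := by
  rw [← hc.inv g hg T, ← hc.alt σ T']
  exact congrArg c (funext h)

theorem parity (hc : SignFn G c) {T : κ → X} (hT : Function.Injective T) {g : Perm X}
    (hg : g ∈ G) {σ : Perm κ} (h : ∀ i, g (T i) = T (σ i)) : Perm.sign σ = 1 := by
  rcases Int.units_eq_one_or (Perm.sign σ) with e | e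
  · exact e
  · have := transport hc hg h
    rw [e] at this
    simp only [Units.val_neg, Units.val_one, Int.cast_neg, Int.cast_one] at this
    exact absurd (by linarith) (ne_zero hc hT)

theorem homog_pos {s : ℕ} (hs : 1 ≤ s) (hG : Gen G (s + 1)) (hκ : Fintype.card κ = 2 * s + 1)
    {T T' : κ → X} (hT : Function.Injective T) (hT' : Function.Injective T') (p p' : κ) :
    ∃ g ∈ G, ∃ σ : Perm κ, (∀ i, g (T i) = T' (σ i)) ∧ σ p = p' := by
  obtain ⟨g, hg, σ, h⟩ := tuple_homog hG hκ hT hT'
  obtain ⟨a, -, ha⟩ := Finset.exists_mem_notMem_of_card_lt_card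
    (s := ({σ p, p'} : Finset κ)) (t := Finset.univ)
    (lt_of_le_of_lt Finset.card_le_two (by rw [Finset.card_univ, hκ]; omega))
  simp only [Finset.mem_insert, Finset.mem_singleton, not_or] at ha
  obtain ⟨ρ, ⟨k, hk, hρ⟩, -, e⟩ := stab_trans hG hκ hT' a (σ p) p' (Ne.symm ha.1) (Ne.symm ha.2)
  exact ⟨k * g, G.mul_mem hk hg, ρ * σ, fun i => by simp [h, hρ], by simpa using e⟩

theorem flip [Infinite X] {s : ℕ} (hs : 1 ≤ s) (hG : Gen G (s + 1))
    (hκ : Fintype.card κ = 2 * s + 1) (hc : SignFn G c) {T : κ → X} (hT : Function.Injective T)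
    (p0 : κ) : ∃ y, c (Function.update T p0 y) = - c T := by
  classical
  obtain ⟨y, hy⟩ := Infinite.exists_notMem_finset (Finset.univ.image T)
  have hy' : ∀ i, T i ≠ y := fun i e => hy (e ▸ Finset.mem_image_of_mem T (Finset.mem_univ i))
  have hinj : ∀ p, Function.Injective (Function.update T p y) := fun p i j e => by
    by_cases hi : i = p <;> by_cases hj : j = p
    · rw [hi, hj]
    · subst hi
      rw [Function.update_self, Function.update_of_ne hj] at e
      exact absurd e.symm (hy' j)
    · subst hj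
      rw [Function.update_self, Function.update_of_ne hi] at e
      exact absurd e (hy' i)
    · rw [Function.update_of_ne hi, Function.update_of_ne hj] at e
      exact hT e
  have hex : ∃ p, c (Function.update T p y) = - c T := by
    rcases hc.face T hT y hy' with h | h
    · by_contra hn
      push Not at hn
      have h1 : ∀ p, c (Function.update T p y) = c T := fun p => by
        have a1 := hc.sq T hT
        have a2 := hc.sq _ (hinj p)
        have : (c (Function.update T p y) - c T) * (c (Function.update T p y) + c T) = 0 := by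
          linear_combination a2 - a1
        rcases mul_eq_zero.1 this with e | e
        · linarith
        · exact absurd (by linarith) (hn p)
      simp only [h1, Finset.sum_const, Finset.card_univ, hκ, nsmul_eq_mul] at h
      have h2 : (s : ℝ) * c T = 0 := by
        push_cast at h
        linarith
      rcases mul_eq_zero.1 h2 with e | e
      · have : s = 0 := by exact_mod_cast e
        omega
      · exact ne_zero hc hT e
    · exact ⟨p0, h p0⟩
  obtain ⟨p, hp⟩ := hex
  obtain ⟨g, hg, σ, h, e⟩ := homog_pos hs hG hκ hT hT p0 p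
  refine ⟨g⁻¹ y, ?_⟩
  have h1 : ∀ i, g (Function.update T p0 (g⁻¹ y) i) = Function.update T p y (σ i) := fun i => by
    by_cases hi : i = p0
    · subst hi
      rw [Function.update_self, e, Function.update_self]
      simp
    · rw [Function.update_of_ne hi, Function.update_of_ne, h]
      exact fun e' => hi (σ.injective (e'.trans e.symm))
  rw [transport hc hg h1, hp, parity hc hT hg h]
  simp

theorem transposition [Infinite X] {s : ℕ} (hs : 1 ≤ s) (hG : Gen G (s + 1))
    (hκ : Fintype.card κ = 2 * s + 1) (hc : SignFn G c) {T : κ → X} (hT : Function.Injective T)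
    (p0 i j : κ) (hij : i ≠ j) (hi : i ≠ p0) (hj : j ≠ p0) :
    ∃ g ∈ G, ∀ l, l ≠ p0 → g (T l) = T (swap i j l) := by
  obtain ⟨y, hy⟩ := flip hs hG hκ hc hT p0
  have h0 : Function.Injective (Function.update T p0 y) := by
    by_contra hn
    have := hc.zero _ hn
    rw [hy] at this
    exact ne_zero hc hT (by linarith)
  have h1 : Function.Injective fun l => Function.update T p0 y (swap i j l) :=
    h0.comp (swap i j).injective
  have h2 : c (fun l => Function.update T p0 y (swap i j l)) = c T := by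
    rw [hc.alt, Perm.sign_swap hij, hy]
    simp
  obtain ⟨g, hg, σ, h⟩ := tuple_homog hG hκ hT h1
  have h3 : Perm.sign σ = 1 := by
    rcases Int.units_eq_one_or (Perm.sign σ) with e | e
    · exact e
    · have := transport (T' := fun l => Function.update T p0 y (swap i j l)) hc hg h
      rw [e, h2] at this
      simp only [Units.val_neg, Units.val_one, Int.cast_neg, Int.cast_one] at this
      exact absurd (by linarith) (ne_zero hc hT)
  obtain ⟨k, hk, h4⟩ := hc.even _ h1 σ⁻¹ (by rw [map_inv, h3, inv_one])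
  refine ⟨k * g, G.mul_mem hk hg, fun l hl => ?_⟩
  rw [Perm.mul_apply, h, h4]
  simp only [Perm.coe_inv, symm_apply_apply]
  rw [Function.update_of_ne]
  intro e
  have : l = swap i j p0 := by rw [← e, swap_apply_self]
  rw [swap_apply_of_ne_of_ne hi.symm hj.symm] at this
  exact hl this

end sign

/-- The tuple made of one point, four points and the fixed points. -/
def tup {n : ℕ} (f : Fin n → X) (p : X) (d : Fin 4 → X) : Option (Fin 4 ⊕ Fin n) → X :=
  fun o => o.elim p (Sum.elim d f)

theorem tup_inj {n : ℕ} {f : Fin n → X} (hf : Function.Injective f) {p a b c d : X}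
    (D : D4 (fun x => ∀ i, f i ≠ x) a b c d) (hp : ∀ i, f i ≠ p) (pa : p ≠ a) (pb : p ≠ b)
    (pc : p ≠ c) (pd : p ≠ d) : Function.Injective (tup f p ![a, b, c, d]) := by
  obtain ⟨o1, o2, o3, o4, n1, n2, n3, n4, n5, n6⟩ := D
  have h1 : Function.Injective ![a, b, c, d] := by
    intro i j e
    fin_cases i <;> fin_cases j <;> simp_all
  have h2 : ∀ i j, ![a, b, c, d] i ≠ f j := fun i j => by
    fin_cases i
    exacts [(o1 j).symm, (o2 j).symm, (o3 j).symm, (o4 j).symm]
  have h3 : ∀ i, ![a, b, c, d] i ≠ p := fun i => by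
    fin_cases i
    exacts [pa.symm, pb.symm, pc.symm, pd.symm]
  rintro (_ | i | i) (_ | j | j) e
  · rfl
  · exact absurd e.symm (h3 j)
  · exact absurd e.symm (hp j)
  · exact absurd e (h3 i)
  · rw [h1 e]
  · exact absurd e (h2 i j)
  · exact absurd e (hp i)
  · exact absurd e.symm (h2 j i)
  · rw [hf e]

theorem par4 {n : ℕ} {c : (Option (Fin 4 ⊕ Fin n) → X) → ℝ} (hc : SignFn G c) {f : Fin n → X}
    {p : X} {d : Fin 4 → X} (hT : Function.Injective (tup f p d)) {g : Perm X} (hg : g ∈ G)
    (h1 : g p = p) (h2 : ∀ i, g (f i) = f i) (τ : Perm (Fin 4)) (h3 : ∀ i, g (d i) = d (τ i)) :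
    Perm.sign τ = 1 := by
  have := parity hc hT hg (σ := optionCongr (Perm.sumCongr τ 1)) (by
    rintro (_ | i | i)
    · exact h1
    · exact h3 i
    · exact h2 i)
  rwa [optionCongr_sign, Perm.sign_sumCongr, map_one, mul_one] at this

theorem trans_of_periodic [Infinite X] {s : ℕ} (hG : Gen G (s + 1)) (A : Finset X)
    (hA : A.card ≤ 2 * s) (hper : ∀ g ∈ G, (∀ a ∈ A, g a = a) → IsOfFinOrder g)
    (x y : Fin (2 * s + 1) → X) (hx : Function.Injective x) (hy : Function.Injective y) :
    ∃ g ∈ G, ∀ i, g (x i) = y i := by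
  classical
  rcases trans_or_sign hG with h | ⟨hs, c0, hc0⟩
  · exact h x y hx hy
  exfalso
  obtain ⟨n, hn⟩ : ∃ n, 2 * s = n + 4 := ⟨2 * s - 4, by omega⟩
  have hκ : Fintype.card (Option (Fin 4 ⊕ Fin n)) = 2 * s + 1 := by simp; omega
  have e : Fin (2 * s + 1) ≃ Option (Fin 4 ⊕ Fin n) := Fintype.equivOfCardEq (by rw [hκ]; simp)
  obtain ⟨c, hc⟩ : ∃ c : (Option (Fin 4 ⊕ Fin n) → X) → ℝ, SignFn G c := by
    refine exists_signFn hG hκ (T0 := fun o => x (e.symm o)) (hx.comp e.symm.injective) ?_
    rintro σ ⟨g, hg, h⟩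
    have := parity hc0 hx hg (σ := e.symm.permCongr σ) (fun i => by simpa using h (e i))
    rwa [Perm.sign_permCongr] at this
  have hs1 : 1 ≤ s := by omega
  -- a tuple whose points other than the first cover A
  obtain ⟨B, hAB, hB⟩ := Infinite.exists_superset_card_eq A (2 * s) hA
  obtain ⟨w, hw⟩ := Infinite.exists_notMem_finset B
  have eB : (Fin 4 ⊕ Fin n) ≃ B := Fintype.equivOfCardEq (by simp [hB]; omega)
  have hTA : Function.Injective fun o : Option (Fin 4 ⊕ Fin n) => o.elim w fun i => (eB i : X) := by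
    rintro (_ | i) (_ | j) h
    · rfl
    · exact absurd (show w ∈ B from (show w = eB j from h) ▸ (eB j).2) hw
    · exact absurd (show w ∈ B from (show (eB i : X) = w from h) ▸ (eB i).2) hw
    · rw [eB.injective (Subtype.ext h)]
  let f : Fin n → X := fun i => eB (Sum.inr i)
  have hf : Function.Injective f := fun i j h =>
    Sum.inr_injective (eB.injective (Subtype.ext h))
  let H : Subgroup (Perm X) :=
    { carrier := {g | g ∈ G ∧ ∀ i, g (f i) = f i}
      one_mem' := ⟨G.one_mem, fun _ => rfl⟩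
      mul_mem' := fun ha hb => ⟨G.mul_mem ha.1 hb.1, fun i => by simp [ha.2, hb.2]⟩
      inv_mem' := fun ha => ⟨G.inv_mem ha.1, fun i => by rw [Perm.inv_eq_iff_eq, ha.2]⟩ }
  have hinf : ∀ S : Finset X, ∃ z, (∀ i, f i ≠ z) ∧ z ∉ S := fun S => by
    obtain ⟨z, hz⟩ := Infinite.exists_notMem_finset (S ∪ Finset.univ.image f)
    rw [Finset.mem_union, not_or] at hz
    exact ⟨z, fun i e => hz.2 (e ▸ Finset.mem_image_of_mem f (Finset.mem_univ i)), hz.1⟩
  have hfifth : ∀ a b c d, D4 (fun x => ∀ i, f i ≠ x) a b c d →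
      ∃ p, Function.Injective (tup f p ![a, b, c, d]) := fun a b c d D => by
    obtain ⟨p, hp, np⟩ := hinf {a, b, c, d}
    simp only [Finset.mem_insert, Finset.mem_singleton, not_or] at np
    exact ⟨p, tup_inj hf D hp np.1 np.2.1 np.2.2.1 np.2.2.2⟩
  refine Ctx.false (H := H) (Ω := fun x => ∀ i, f i ≠ x) ⟨?_, ?_, ?_, ?_, ?_, hinf⟩
  · intro h hh z hz i e
    exact hz (e ▸ hh.2 i)
  · intro a b c' d D
    obtain ⟨p, hp⟩ := hfifth a b c' d D
    obtain ⟨g, hg, h⟩ := transposition hs1 hG hκ hc hp none (some (Sum.inl 2)) (some (Sum.inl 3))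
      (by simp) (by simp) (by simp)
    refine ⟨g, ⟨hg, fun i => ?_⟩, ?_, ?_, ?_, ?_⟩
    · have := h (some (Sum.inr i)) (by simp)
      rwa [swap_apply_of_ne_of_ne (by simp) (by simp)] at this
    · have := h (some (Sum.inl 0)) (by simp)
      rwa [swap_apply_of_ne_of_ne (by simp) (by simp)] at this
    · have := h (some (Sum.inl 1)) (by simp)
      rwa [swap_apply_of_ne_of_ne (by simp) (by simp)] at this
    · have := h (some (Sum.inl 2)) (by simp)
      rwa [swap_apply_left] at this
    · have := h (some (Sum.inl 3)) (by simp)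
      rwa [swap_apply_right] at this
  · intro a b c' d D h hh e1 e2 e3 e4
    obtain ⟨p, hp⟩ := hfifth a b c' d D
    obtain ⟨g, hg, σ, hσ, e0⟩ := homog_pos hs1 hG hκ hTA hp none none
    have hfix : ∀ o, o ≠ none → h (tup f p ![a, b, c', d] o) = tup f p ![a, b, c', d] o := by
      rintro (_ | i | i) ho
      · exact absurd rfl ho
      · fin_cases i
        exacts [e1, e2, e3, e4]
      · exact hh.2 i
    have h1 : IsOfFinOrder (g⁻¹ * h * g) := by
      refine hper _ (G.mul_mem (G.mul_mem (G.inv_mem hg) hh.1) hg) fun u hu => ?_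
      have h2 := hσ (some (eB.symm ⟨u, hAB hu⟩))
      simp only [Option.elim, apply_symm_apply] at h2
      rw [Perm.mul_apply, Perm.mul_apply, Perm.inv_eq_iff_eq, h2]
      exact hfix _ fun e' => by simpa using σ.injective (e'.trans e0.symm)
    obtain ⟨m, hm0, hm⟩ := isOfFinOrder_iff_pow_eq_one.1 h1
    refine isOfFinOrder_iff_pow_eq_one.2 ⟨m, hm0, ?_⟩
    have h3 : (g⁻¹ * h * g⁻¹⁻¹) ^ m = g⁻¹ * h ^ m * g⁻¹⁻¹ := conj_pow
    rw [inv_inv, hm] at h3
    calc h ^ m = g * (g⁻¹ * h ^ m * g) * g⁻¹ := by group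
      _ = 1 := by rw [← h3]; group
  · intro a b c' d p D hp h hh e0 pa pb e1 e2 e3 e4
    have cd : c' ≠ d := D.2.2.2.2.2.2.2.2.2
    have hT := tup_inj hf D hp pa pb (fun e => cd (by rw [← e3, ← e, e0]))
      (fun e => cd (by rw [← e4, ← e, e0]))
    have := par4 hc hT hh.1 e0 hh.2 (swap 2 3) (fun i => by
      fin_cases i
      exacts [e1, e2, e3, e4])
    exact absurd this (by decide)
  · intro a b c' d p D hp h hh e0 e1 e3 e2 e4
    obtain ⟨o1, o2, o3, o4, n1, n2, n3, n4, n5, n6⟩ := id D
    have hT := tup_inj hf D hp (fun e => n2 (by rw [← e1, ← e, e0]))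
      (fun e => n5 (by rw [← e2, ← e, e0])) (fun e => n4 (by rw [← e3, ← e, e0]))
      (fun e => n3 (by rw [← e4, ← e, e0]))
    have := par4 hc hT hh.1 e0 hh.2 (swap 0 3 * swap 0 1 * swap 0 2) (fun i => by
      fin_cases i
      exacts [e1, e2, e3, e4])
    exact absurd this (by decide)

end Pool.Agent.FS.PeriodicStabiliser
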